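import Pool.Agent.Lib.MP_1ef7cf_nt_f.FR
import Pool.Agent.Lib.MP_1ef7cf_nt_f.AM

section

/-!
# The fixed field of the group `sgR`
-/

set_option linter.unusedSectionVars false

open NumberField IsDedekindDomain nonZeroDivisors IntermediateField

namespace Pool.Agent.STf

open Pool.Agent.ST Pool.Agent.STb Pool.Agent.STd

variable {K : Type*} [Field K] [NumberField K] [Algebra K ℝ] {σ₂ : K →+* ℝ}
  {m : Ideal (𝓞 K)} {v q : PrI K} {H H' : IntermediateField K ℝ}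
  {Art : RayClassGroup σ₂ m ≃* (H ≃ₐ[K] H)}

/-- the Artin map is unique -/
lemma art_unique {n : Ideal (𝓞 K)} (hn : n ≠ ⊥) {H : IntermediateField K ℝ}
    {A₁ A₂ : RayClassGroup σ₂ n ≃* (H ≃ₐ[K] H)} (h₁ : IsRayClassField σ₂ n H A₁)
    (h₂ : IsRayClassField σ₂ n H A₂) : A₁ = A₂ := by
  have := h₁.galois
  have : Normal K H := inferInstance
  ext1 A
  have h3 := IsRCF.res_art (σ₂ := σ₂) le_rfl hn Set.finite_empty Set.finite_empty h₁.isRCF
    h₂.isRCF le_rfl A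
  rw [res_self, pr_refl] at h3
  exact h3

theorem claimAR (h : HypR σ₂ m v) (hd : RData σ₂ m H Art) {N f : ℕ} {β : 𝓞 K}
    (hβ : Ideal.span {β} = v.asIdeal ^ f) (hβ1 : β - 1 ∈ m) (hβ2 : 0 < σ₂ (β : K))
    (hN : ¬ 2 ^ N ∣ 2 * f) {ε₀ : (𝓞 K)ˣ}
    (hε₀ : ∀ w : (𝓞 K)ˣ, ∃ k : ℤ, w = ε₀ ^ k ∨ w = -ε₀ ^ k) {x : ℝ} (hx : x ∈ H)
    (hfix : ∀ σ : H ≃ₐ[K] H, AS K (ez σ₂ m Art σ / ez σ₂ m Art 1) → act σ x = x) :
    (x : ℂ) ∈ MN ((ε₀ : 𝓞 K) : K) N := by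
  by_contra hxM
  have hfd := hd.rcf.finite
  have hab : IsAbelianGalois K H := hd.rcf.isRCF.abelian
  set e : K := ((ε₀ : 𝓞 K) : K) with he
  have hFH : K⟮x⟯ ≤ H := adjoin_simple_le_iff.2 hx
  have : IsAbelianGalois K K⟮x⟯ := isAbelianGalois_of_le hFH
  have : FiniteDimensional K K⟮x⟯ := fd_of_le hFH
  have gx : IsGalois K K⟮(x : ℂ)⟯ := adjoin_coe_galois
  have fx : FiniteDimensional K K⟮(x : ℂ)⟯ := by
    rw [adjoin_coe]
    exact Module.Finite.equiv (IntermediateField.equivMap K⟮x⟯ (jR K)).toLinearEquiv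
  have gM : IsGalois K (MN e N) := gal_MN e N
  have fM : FiniteDimensional K (MN e N) := fd_MN e N
  have gM₁ := gal_MNβ e (β : K) N
  have fM₁ := fd_MNβ e (β : K) N
  have gM₂ : IsGalois K (MN e N ⊔ K⟮(x : ℂ)⟯ : IntermediateField K ℂ) := by
    have : Normal K (MN e N ⊔ K⟮(x : ℂ)⟯ : IntermediateField K ℂ) := inferInstance
    exact ⟨⟩
  set T : IntermediateField K ℂ :=
    IntermediateField.adjoin K {z : ℂ | z ^ (2 ^ N) = algebraMap K ℂ (β : K)} with hT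
  obtain ⟨w, hw⟩ := IsAlgClosed.exists_pow_nat_eq (algebraMap K ℂ (β : K))
    (show 0 < 2 ^ N by positivity)
  have hwT : w ∈ T := subset_adjoin K _ hw
  have h1 : MN e N < MN e N ⊔ T := by
    refine lt_of_le_of_ne le_sup_left fun hh => ?_
    apply notMem_MN hN hβ ε₀ hw
    rw [← he, hh]
    exact (le_sup_right : T ≤ _) hwT
  have h2 : MN e N < MN e N ⊔ K⟮(x : ℂ)⟯ := by
    refine lt_of_le_of_ne le_sup_left fun hh => ?_
    apply hxM
    rw [hh]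
    exact (le_sup_right : K⟮(x : ℂ)⟯ ≤ _) (mem_adjoin_simple_self K _)
  obtain ⟨L, hNL, hGL, hL₁, hL₂, P, σ, hPB, hσ, e0, ⟨x₁, hx₁, e1⟩, ⟨x₂, hx₂, e2⟩⟩ :=
    exists_twoC h1 h2 ({q | q.asIdeal ∣ m} ∪ {q | (2 : 𝓞 K) ∈ q.asIdeal} ∪ {v})
      (((finite_dvd h.hm).union (finite_two K)).union (Set.finite_singleton v))
  rw [Set.mem_union, Set.mem_union, not_or, not_or] at hPB
  obtain ⟨⟨hq, hq2⟩, hqv⟩ := hPB
  have hq : ¬ (und K P).asIdeal ∣ m := hq
  have hq2 : (2 : 𝓞 K) ∉ (und K P).asIdeal := hq2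
  have hqv : und K P ≠ v := hqv
  have hML : MN e N ≤ L := h1.le.trans hL₁
  have hfM : MN e N ≤ fixL σ := fun z hz => (mem_fixL σ (hML hz)).2 (e0 z hz)
  -- roots of unity
  have hζ := Complex.isPrimitiveRoot_exp (2 ^ (N + 1)) (by positivity)
  set ζ : ℂ := Complex.exp (2 * Real.pi * Complex.I / (2 ^ (N + 1) : ℕ)) with hζdef
  have hζM : ζ ∈ MN e N := subset_adjoin K _ (Or.inr hζ.pow_eq_one)
  have hζneg : ζ ^ (2 ^ N) = -1 := by
    have h3 : (ζ ^ (2 ^ N)) ^ 2 = 1 := by rw [← pow_mul, ← pow_succ]; exact hζ.pow_eq_one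
    rcases sq_eq_one_iff_of_side_conds h3 with h4 | h4
    · exfalso
      have h5 := hζ.pow_ne_one_of_pos_of_lt (l := 2 ^ N) (by positivity)
        (Nat.pow_lt_pow_right one_lt_two (Nat.lt_succ_self N))
      exact h5 h4
    · exact h4
  have hdvd : 2 ^ (N + 1) ∣ pn (und K P) - 1 := by
    have hζL : IsPrimitiveRoot (⟨ζ, hML hζM⟩ : L) (2 ^ (N + 1)) := by
      rw [← IsPrimitiveRoot.coe_submonoidClass_iff]
      exact hζ
    exact (fix_root_iff hσ hq2 hζL).1 (e0 ζ hζM)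
  have hdvd' : 2 ^ N ∣ pn (und K P) - 1 := (pow_dvd_pow 2 (Nat.le_succ N)).trans hdvd
  obtain ⟨ρ, hρ⟩ := IsAlgClosed.exists_pow_nat_eq (algebraMap K ℂ e)
    (show 0 < 2 ^ N by positivity)
  have hρM : ρ ∈ MN e N := subset_adjoin K _ (Or.inl hρ)
  have hun : ∀ w : (𝓞 K)ˣ, EU σ₂ m w →
      ∃ y : 𝓞 K ⧸ (und K P).asIdeal, y ^ (2 ^ N) = Ideal.Quotient.mk _ (w : 𝓞 K) := by
    intro w _
    have hw' : (w : 𝓞 K) ∉ (und K P).asIdeal := fun hh =>
      (und K P).isPrime.ne_top (Ideal.eq_top_of_isUnit_mem _ hh w.isUnit)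
    obtain ⟨z, hzM, hz⟩ : ∃ z ∈ MN e N, z ^ (2 ^ N) = algebraMap K ℂ ((w : 𝓞 K) : K) := by
      obtain ⟨k, hk | hk⟩ := hε₀ w
      · refine ⟨ρ ^ k, zpow_mem hρM k, ?_⟩
        rw [← zpow_natCast, ← zpow_mul, mul_comm, zpow_mul, zpow_natCast, hρ, hk, ← map_zpow₀]
        congr 1
        rw [he, coe_zpow_unit]
      · refine ⟨ζ * ρ ^ k, mul_mem hζM (zpow_mem hρM k), ?_⟩
        rw [mul_pow, hζneg, ← zpow_natCast, ← zpow_mul, mul_comm k, zpow_mul, zpow_natCast, hρ, hk,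
          ← map_zpow₀, neg_one_mul, ← map_neg]
        congr 1
        rw [he, coe_neg_unit, coe_zpow_unit]
    refine (fix_iff_pow hσ hq2 hdvd' hw' (x := ⟨z, hML hzM⟩) ?_).1 (e0 z hzM)
    apply Subtype.ext
    exact hz
  have hβq : ¬ ∃ y : 𝓞 K ⧸ (und K P).asIdeal, y ^ (2 ^ N) = Ideal.Quotient.mk _ β := by
    intro hy
    have hβP : β ∉ (und K P).asIdeal := by
      intro hh
      have h3 : (und K P).asIdeal ∣ v.asIdeal ^ f := by
        rw [← hβ]; exact Ideal.dvd_iff_le.2 ((Ideal.span_singleton_le_iff_mem _).2 hh)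
      have h4 := (und K P).prime.dvd_of_dvd_pow h3
      exact hqv (eq_of_dvd_prime h4)
    apply e1
    have hTf : MN e N ⊔ T ≤ fixL σ := by
      refine sup_le hfM ?_
      rw [hT, adjoin_le_iff]
      intro z hz
      have hzL : z ∈ L := hL₁ ((le_sup_right : T ≤ MN e N ⊔ T) (subset_adjoin K _ hz))
      refine (mem_fixL σ hzL).2 ((fix_iff_pow hσ hq2 hdvd' hβP (x := ⟨z, hzL⟩) ?_).2 hy)
      apply Subtype.ext
      exact hz
    exact (mem_fixL σ _).1 (hTf hx₁)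
  have hAS := frob_mem_of_evenR h hq hqv hq2 hd hβ hβ1 hβ2 hun hβq
  have hxL : (x : ℂ) ∈ L := hL₂ ((le_sup_right : K⟮(x : ℂ)⟯ ≤ _) (mem_adjoin_simple_self K _))
  have h5 := frob_real hd.rcf hσ hq hx hxL (hfix _ hAS)
  apply e2
  have hf2 : MN e N ⊔ K⟮(x : ℂ)⟯ ≤ fixL σ :=
    sup_le hfM (adjoin_simple_le_iff.2 ((mem_fixL σ hxL).2 h5))
  exact (mem_fixL σ _).1 (hf2 hx₂)

theorem claimCR (h : HypR σ₂ m v) (c : ℕ) (hd : RData σ₂ m H Art) :
    ∃ B : Set (PrI K), B.Finite ∧ v ∈ B ∧ ∀ q : PrI K, q ∉ B → ¬ q.asIdeal ∣ m →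
      ¬ 2 ^ (c + 1) ∣ pn q - 1 →
      ∀ {H' : IntermediateField K ℝ}
        {Art' : RayClassGroup σ₂ (m * q.asIdeal) ≃* (H' ≃ₐ[K] H')},
        RData σ₂ (m * q.asIdeal) H' Art' → ∀ γ : H' ≃ₐ[K] H', (∀ x ∈ H, act γ x = x) →
        AS K (ez σ₂ (m * q.asIdeal) Art' γ / ez σ₂ (m * q.asIdeal) Art' 1) := by
  classical
  obtain ⟨f, β, hf0, hβ, hβ1, hβ2⟩ := exists_betaR h
  obtain ⟨ε₀, hε₀, -⟩ := exists_fund h.h2
  obtain ⟨a, o, ho, hao⟩ := Nat.exists_eq_two_pow_mul_odd (n := 2 * f) (by omega)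
  set N := a + (c + 1) with hN
  have hNq : ∀ s : ℕ, ¬ 2 ^ (c + 1) ∣ s → ¬ 2 ^ N ∣ 2 * (f * s) := by
    intro s hs hd
    apply hs
    rw [← mul_assoc, hao, hN, pow_add, mul_assoc] at hd
    have h1 := Nat.dvd_of_mul_dvd_mul_left (by positivity) hd
    exact (Nat.Coprime.pow_left _ (Nat.coprime_two_left.2 ho)).dvd_of_dvd_mul_left h1
  let Q := {q : PrI K // q ≠ v ∧ ¬ q.asIdeal ∣ m ∧ ¬ 2 ^ (c + 1) ∣ pn q - 1}
  have hH : ∀ q : Q, HypR σ₂ (m * q.1.asIdeal) v := fun q => h.mul q.2.1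
  choose Hq Aq hq using fun q : Q => (hH q).stark _ (hH q).hm le_rfl (hH q).hv
  have hfd : ∀ q, FiniteDimensional K (Hq q) := fun q => (hq q).rcf.finite
  have hab : ∀ q, IsAbelianGalois K (Hq q) := fun q => (hq q).rcf.isRCF.abelian
  let F : Q → IntermediateField K ℝ := fun q =>
    IntermediateField.lift (IntermediateField.fixedField (sgR (hq q).ratio))
  have hFH : ∀ q, F q ≤ Hq q := fun q => IntermediateField.lift_le _
  have hFM : ∀ q, F q ∈ {F : IntermediateField K ℝ | F.map (jR K) ≤ MN ((ε₀ : 𝓞 K) : K) N} := by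
    intro q
    change (F q).map (jR K) ≤ _
    rintro _ ⟨x, hx, rfl⟩
    have hx' : x ∈ F q := hx
    have hxH := hFH q hx'
    have hβq : β ∉ q.1.asIdeal := by
      intro hh
      have h3 : q.1.asIdeal ∣ v.asIdeal ^ f := by
        rw [← hβ]; exact Ideal.dvd_iff_le.2 ((Ideal.span_singleton_le_iff_mem _).2 hh)
      exact q.2.1 (eq_of_dvd_prime (q.1.prime.dvd_of_dvd_pow h3))
    refine claimAR (hH q) (hq q) (N := N) (f := f * (pn q.1 - 1)) (β := β ^ (pn q.1 - 1))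
      ?_ ?_ ?_ (hNq _ q.2.2.2) hε₀ hxH ?_
    · rw [← Ideal.span_singleton_pow, hβ, pow_mul]
    · have hcop : IsCoprime m q.1.asIdeal := (coprime_prime_iff.2 q.2.2.1).symm
      rw [Ideal.mul_eq_inf_of_isCoprime hcop]
      refine ⟨?_, pow_pn_sub_one_mem hβq⟩
      have h4 : β ^ (pn q.1 - 1) - 1 ∈ m := by
        have h5 := sub_dvd_pow_sub_pow β 1 (pn q.1 - 1)
        rw [one_pow] at h5
        exact m.mem_of_dvd h5 hβ1
      exact h4
    · have h6 : ((β ^ (pn q.1 - 1) : 𝓞 K) : K) = (β : K) ^ (pn q.1 - 1) :=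
        map_pow (algebraMap (𝓞 K) K) _ _
      rw [h6, map_pow]
      exact pow_pos hβ2 _
    · intro σ hσ
      exact (mem_lift_fixedField _ hxH).1 hx' σ (mem_sgR.2 hσ)
  let bad : Set Q := {q | ∃ γ : Hq q ≃ₐ[K] Hq q, (∀ x ∈ H, act γ x = x) ∧
    ¬ AS K (ez σ₂ (m * q.1.asIdeal) (Aq q) γ / ez σ₂ (m * q.1.asIdeal) (Aq q) 1)}
  have hbad : bad.Finite := by
    apply Set.Finite.of_finite_image (f := F)
    · have := fd_MN ((ε₀ : 𝓞 K) : K) N
      refine (finite_subfields (MN ((ε₀ : 𝓞 K) : K) N)).subset ?_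
      rintro _ ⟨q, -, rfl⟩
      exact hFM q
    · rintro q ⟨γ, hγ, hγ'⟩ q' - hqq
      by_contra hne
      have hne' : q.1 ≠ q'.1 := fun hh => hne (Subtype.ext hh)
      obtain ⟨M, AM, hM⟩ := ((hH q).mul q'.2.1).stark _ ((hH q).mul q'.2.1).hm le_rfl
        ((hH q).mul q'.2.1).hv
      have hinf : Hq q ⊓ Hq q' ≤ H := inf_le h.hm hne' q'.2.2.1 rfl rfl rfl hd.rcf (hq q).rcf
        (hq q').rcf hM.rcf
      apply hγ'
      have h6 : γ ∈ sgR (hq q).ratio := by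
        apply mem_of_fix
        intro x hx
        apply hγ
        apply hinf
        refine ⟨hFH q hx, ?_⟩
        have h7 : x ∈ F q' := by rw [← hqq]; exact hx
        exact hFH q' h7
      exact h6
  refine ⟨{v} ∪ Subtype.val '' bad, (Set.finite_singleton v).union (hbad.image _), Or.inl rfl, ?_⟩
  intro q hqB hqm hqc H' Art' hd' γ hγ
  rw [Set.mem_union, not_or] at hqB
  let q₀ : Q := ⟨q, hqB.1, hqm, hqc⟩
  obtain rfl : H' = Hq q₀ := SData.field_eq (hH q₀).hm hd'.rcf (hq q₀).rcf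
  obtain rfl : Art' = Aq q₀ := art_unique (hH q₀).hm hd'.rcf (hq q₀).rcf
  by_contra hcon
  exact hqB.2 ⟨q₀, ⟨γ, hγ, hcon⟩, rfl⟩

end Pool.Agent.STf
end

section

/-!
# Removal of a prime from the modulus
-/

set_option linter.unusedSectionVars false

open NumberField IsDedekindDomain nonZeroDivisors IntermediateField

namespace Pool.Agent.STf

open Pool.Agent.ST Pool.Agent.STb Pool.Agent.STd

lemma even_of_involution {K : Type*} [Field K] [Algebra K ℝ] {F L : IntermediateField K ℝ}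
    (h : F ≤ L) [FiniteDimensional K L] [Normal K F] {τ : L ≃ₐ[K] L} (hτ : τ ≠ 1)
    (hτ2 : τ * τ = 1) (hτF : res h τ = 1) : Even (fib h (1 : F ≃ₐ[K] F)).card := by
  classical
  have hcard : Nat.card (res h).ker = (fib h (1 : F ≃ₐ[K] F)).card := by
    rw [← Nat.card_eq_finsetCard]
    refine Nat.card_congr (Equiv.subtypeEquivRight fun γ => ?_)
    rw [mem_fib, MonoidHom.mem_ker]
  have h1 : orderOf (⟨τ, hτF⟩ : (res h).ker) = 2 := by
    apply orderOf_eq_prime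
    · apply Subtype.ext
      rw [pow_two]
      exact hτ2
    · intro h2
      exact hτ (congrArg Subtype.val h2)
  rw [even_iff_two_dvd, ← hcard, ← h1]
  exact orderOf_dvd_natCard _

variable {K : Type*} [Field K] [NumberField K] [Algebra K ℝ] {σ₂ : K →+* ℝ}
  {m : Ideal (𝓞 K)} {v : PrI K}

lemma PF.of_starkTate {n : Ideal (𝓞 K)} (hn : n ≠ ⊥) {L F : IntermediateField K ℝ}
    {A : RayClassGroup σ₂ n ≃* (L ≃ₐ[K] L)} (hr : IsRayClassField σ₂ n L A)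
    (hst : StarkTate σ₂ n) [FiniteDimensional K L] [IsAbelianGalois K L]
    (hFL : F ≤ L) [FiniteDimensional K F] [IsAbelianGalois K F] :
    PF σ₂ hFL (ez σ₂ n A) ∧ ∀ τ, AS K (pf hFL (ez σ₂ n A) τ) := by
  obtain ⟨L', A', w, d⟩ := hst.data
  obtain rfl : L' = L := SData.field_eq hn d.rcf hr
  obtain rfl : A' = A := art_unique hn d.rcf hr
  have he : ∀ γ, ST.act γ w = ez σ₂ n A' γ := by
    intro γ
    obtain ⟨B, rfl⟩ := A'.surjective γ
    rw [d.act, ez_art]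
  refine ⟨PF.of_act hFL d.stark.isSU he, fun τ => ?_⟩
  rw [pf_act hFL he]
  exact AS.fibProd hFL d.stark.mem d.stark.pos
    (as_of_ab d.stark.mem d.stark.pos'.le d.stark.ab) τ

theorem final_stepR (h : HypR σ₂ m v) (hE : EE σ₂ m)
    (hcase : (∀ w : (𝓞 K)ˣ, EU σ₂ m w → ∃ x : (𝓞 K)ˣ, w = x ^ 4) ∨
      (∀ n : Ideal (𝓞 K), n ≠ ⊥ → n ≤ m → ¬ v.asIdeal ∣ n →
        (∀ w : (𝓞 K)ˣ, EU σ₂ n w → ∃ w' : (𝓞 K)ˣ, EU σ₂ m w' ∧ w = w' ^ 2) →
        StarkTate σ₂ n)) : StarkTate σ₂ m := by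
  classical
  obtain ⟨H, Art, hd⟩ := h.stark m h.hm le_rfl h.hv
  have hfdH := hd.rcf.finite
  have habH : IsAbelianGalois K H := hd.rcf.isRCF.abelian
  obtain ⟨c, hc2, hgenc⟩ := gen_primes h.h2 h.hm hd.rcf hE
  obtain ⟨B, hB, hvB, hBm⟩ := claimCR h c hd
  let ι := {q : PrI K // GoodQ σ₂ m c q ∧ q ∉ B}
  have hqv : ∀ i : ι, i.1 ≠ v := fun i hi => i.2.2 (hi ▸ hvB)
  have hHi : ∀ i : ι, HypR σ₂ (m * i.1.asIdeal) v := fun i => h.mul (hqv i)
  choose L ArtL hL using fun i : ι => (hHi i).stark _ (hHi i).hm le_rfl (hHi i).hv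
  have hfd : ∀ i, FiniteDimensional K (L i) := fun i => (hL i).rcf.finite
  have hab : ∀ i, IsAbelianGalois K (L i) := fun i => (hL i).rcf.isRCF.abelian
  have hle : ∀ i : ι, m * i.1.asIdeal ≤ m := fun i => Ideal.mul_le_left
  have hHL : ∀ i, H ≤ L i := fun i => IsRCF.le (hle i) (hHi i).hm Set.finite_empty
    Set.finite_empty (hL i).rcf.isRCF hd.rcf.isRCF
  choose Bi hBi hvBi hBim using fun i : ι => claimCR (hHi i) c (hL i)
  have hdvd : ∀ i : ι, ¬ i.1.asIdeal ∣ m := fun i => i.2.1.ndvd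
  -- the two types
  let T2 : ι → Prop := fun i =>
    ∀ w : (𝓞 K)ˣ, EU σ₂ (m * i.1.asIdeal) w → ∃ w' : (𝓞 K)ˣ, EU σ₂ m w' ∧ w = w' ^ 2
  have hchoice : ∀ i : ι, ∃ F : IntermediateField K ℝ, ∃ (hHF : H ≤ F) (hFL : F ≤ L i)
      (_ : FiniteDimensional K F) (_ : IsAbelianGalois K F),
      PF σ₂ hFL (ez σ₂ (m * i.1.asIdeal) (ArtL i)) ∧
      AS K (pf hFL (ez σ₂ (m * i.1.asIdeal) (ArtL i)) 1) ∧
      Even (fib hHF (1 : H ≃ₐ[K] H)).card ∧
      ((T2 i ∧ ∀ n : Ideal (𝓞 K), n ≠ ⊥ → n ≤ m → ¬ v.asIdeal ∣ n →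
        (∀ w : (𝓞 K)ˣ, EU σ₂ n w → ∃ w' : (𝓞 K)ˣ, EU σ₂ m w' ∧ w = w' ^ 2) → StarkTate σ₂ n) ∨
       (∃ τ : L i ≃ₐ[K] L i, τ ≠ 1 ∧ τ * τ = 1 ∧ res (hHL i) τ = 1 ∧
        F = IntermediateField.lift (IntermediateField.fixedField (Subgroup.zpowers τ)))) := by
    intro i
    by_cases hT1 : ∀ w : (𝓞 K)ˣ, EU σ₂ m w →
      ∃ x : 𝓞 K ⧸ i.1.asIdeal, x ^ 4 = Ideal.Quotient.mk i.1.asIdeal w
    · -- type I
      have h4 : 4 ∣ pn i.1 - 1 := by
        have : (4 : ℕ) = 2 ^ 2 := by norm_num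
        rw [this]
        exact (pow_dvd_pow 2 hc2).trans i.2.1.dvd
      have hcard := four_dvd_card h.hm (hdvd i) hd.rcf (hL i).rcf (hHL i) h4 hT1
      obtain ⟨τ, hτ, hτ2, hτH⟩ := exists_involution (hHL i) (by
        obtain ⟨k, hk⟩ := hcard
        exact ⟨2 * k, by omega⟩)
      have hFL : IntermediateField.lift (IntermediateField.fixedField (Subgroup.zpowers τ)) ≤ L i :=
        IntermediateField.lift_le _
      have hFab : IsAbelianGalois K (IntermediateField.lift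
        (IntermediateField.fixedField (Subgroup.zpowers τ)) : IntermediateField K ℝ) :=
        isAbelianGalois_of_le hFL
      have hFfd : FiniteDimensional K (IntermediateField.lift
        (IntermediateField.fixedField (Subgroup.zpowers τ)) : IntermediateField K ℝ) :=
        fd_of_le hFL
      have hHF : H ≤ IntermediateField.lift (IntermediateField.fixedField (Subgroup.zpowers τ)) := by
        intro x hx
        refine (mem_lift_fixedField _ (hHL i hx)).2 ?_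
        intro σ hσ
        have h1 : res (hHL i) σ = 1 := by
          obtain ⟨k, rfl⟩ := Subgroup.mem_zpowers_iff.1 hσ
          rw [map_zpow, hτH, one_zpow]
        exact (res_eq_one_iff (hHL i) σ).1 h1 x hx
      obtain ⟨e1, e2⟩ := fix_involution hτ hτ2 rfl hFL
      have hASτ := hBm i.1 i.2.2 (hdvd i) i.2.1.not_dvd (hL i) τ
        ((res_eq_one_iff (hHL i) τ).1 hτH)
      have eprod := ez_prod h.h2 h.hσ (hHi i).hm (hHi i).hm1 (ArtL i)
      refine ⟨_, hHF, hFL, hFfd, hFab, PF.of_even hFL (hL i).ratio eprod (by rw [e2]; exact even_two),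
        as_pf_of_inv hFL (hL i).ratio eprod hτ hτ2 e1 hASτ 1, ?_,
        Or.inr ⟨τ, hτ, hτ2, hτH, rfl⟩⟩
      have e3 := card_fib_mul hHF hFL
      rw [e2] at e3
      obtain ⟨k, hk⟩ := hcard
      have e4 : (fib (hHF.trans hFL) (1 : H ≃ₐ[K] H)).card = 4 * k := hk
      exact ⟨k, by omega⟩
    · -- type II
      have hT2 : T2 i := (units_dichotomy h.h2 h.hm i.1).resolve_left hT1
      have hc' := hcase.resolve_left (fun hl => hT1 fun w hw => by
        obtain ⟨x, rfl⟩ := hl w hw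
        exact ⟨Ideal.Quotient.mk _ (x : 𝓞 K), by rw [← map_pow]; rfl⟩)
      have hst := hc' _ (hHi i).hm (hle i) (hHi i).hv hT2
      obtain ⟨hP1, hP2⟩ := PF.of_starkTate (hHi i).hm (hL i).rcf hst (le_refl (L i))
      refine ⟨L i, hHL i, le_rfl, hfd i, hab i, hP1, hP2 1, ?_, Or.inl ⟨hT2, hc'⟩⟩
      exact even_fib h.hm (hdvd i) rfl i.2.1.odd (fun w hw1 hw2 => i.2.1.sq w ⟨hw1, hw2⟩) hd.rcf
        (hL i).rcf (hHL i)
  choose F hHF hFL hFfd hFab hFPF hFAS hFeven hFtype using hchoice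
  have hgen : ∀ B' : Set (PrI K), B'.Finite → Subgroup.closure
      {σ | ∃ i : ι, i.1 ∉ B' ∧ Art (cls σ₂ m (prJ m i.1 (hdvd i))) = σ} = ⊤ := by
    intro B' hB'
    rw [eq_top_iff, ← hgenc (B ∪ B') (hB.union hB'), Subgroup.closure_le]
    rintro σ ⟨q, hq, hqB, rfl⟩
    rw [Set.mem_union, not_or] at hqB
    exact Subgroup.subset_closure ⟨⟨q, hq, hqB.1⟩, hqB.2, rfl⟩
  refine assembleR h.h2 h.hσ h.hm h.hm1 hd.rcf (fun i : ι => i.1) Subtype.val_injective hdvd L ArtL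
    (fun i => (hL i).rcf) F hHF hFL hFPF hFAS hFeven (gen_two _ (fun i : ι => i.1) hgen)
    (fun i j => i ≠ j ∧ j.1 ∉ Bi i) (fun i j hij => hij.1) ?_ ?_
  · intro i
    rw [eq_top_iff, ← hgen (Bi i ∪ {i.1}) ((hBi i).union (Set.finite_singleton _)),
      Subgroup.closure_le]
    rintro σ ⟨j, hj, rfl⟩
    rw [Set.mem_union, not_or] at hj
    apply Subgroup.subset_closure
    exact ⟨j, ⟨fun hh => hj.2 (congrArg Subtype.val hh).symm, hj.1⟩, rfl⟩
  · -- pairs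
    rintro i j ⟨hij, hjB⟩
    have hij' : i.1 ≠ j.1 := fun hh => hij (Subtype.ext hh)
    have hHM : HypR σ₂ (m * i.1.asIdeal * j.1.asIdeal) v := (hHi i).mul (hqv j)
    obtain ⟨M, ArtM, hM⟩ := hHM.stark _ hHM.hm le_rfl hHM.hv
    have hMi : m * i.1.asIdeal * j.1.asIdeal ≤ m * i.1.asIdeal := Ideal.mul_le_left
    have hMj : m * i.1.asIdeal * j.1.asIdeal ≤ m * j.1.asIdeal := by
      rw [mul_right_comm]; exact Ideal.mul_le_left
    have hLiM : L i ≤ M := IsRCF.le hMi hHM.hm Set.finite_empty Set.finite_empty hM.rcf.isRCF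
      (hL i).rcf.isRCF
    have hLjM : L j ≤ M := IsRCF.le hMj hHM.hm Set.finite_empty Set.finite_empty hM.rcf.isRCF
      (hL j).rcf.isRCF
    have hMfd := hM.rcf.finite
    have hMab : IsAbelianGalois K M := hM.rcf.isRCF.abelian
    have hsab : IsAbelianGalois K (F i ⊔ F j : IntermediateField K ℝ) := isAbelianGalois_sup
    have hsup : F i ⊔ F j ≤ M := sup_le ((hFL i).trans hLiM) ((hFL j).trans hLjM)
    refine ⟨M, ArtM, hM.rcf, hMfd, hMab, hsab, hsup, ?_⟩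
    have hdj : ¬ j.1.asIdeal ∣ m * i.1.asIdeal := not_dvd_mul_prime (hdvd j) hij'.symm
    have hII : (∀ w : (𝓞 K)ˣ, EU σ₂ (m * i.1.asIdeal * j.1.asIdeal) w →
        ∃ w' : (𝓞 K)ˣ, EU σ₂ m w' ∧ w = w' ^ 2) → (∀ n : Ideal (𝓞 K), n ≠ ⊥ → n ≤ m →
        ¬ v.asIdeal ∣ n →
        (∀ w : (𝓞 K)ˣ, EU σ₂ n w → ∃ w' : (𝓞 K)ˣ, EU σ₂ m w' ∧ w = w' ^ 2) → StarkTate σ₂ n) →
        PF σ₂ hsup (ez σ₂ (m * i.1.asIdeal * j.1.asIdeal) ArtM) ∧
        AS K (pf hsup (ez σ₂ (m * i.1.asIdeal * j.1.asIdeal) ArtM) 1) := by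
      intro hw hn
      have hst := hn _ hHM.hm (hMi.trans (hle i)) hHM.hv hw
      obtain ⟨hP1, hP2⟩ := PF.of_starkTate hHM.hm hM.rcf hst hsup
      exact ⟨hP1, hP2 1⟩
    rcases hFtype i with ⟨hi1, hi2⟩ | ⟨τi, -, -, -, -⟩
    · exact hII (fun w hw => hi1 w (EU.mono' hMi hw)) hi2
    rcases hFtype j with ⟨hj1, hj2⟩ | ⟨τ, hτ, hτ2, hτH, hFj⟩
    · exact hII (fun w hw => hj1 w (EU.mono' hMj hw)) hj2
    have heven : Even (fib hLiM (1 : L i ≃ₐ[K] L i)).card :=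
      even_fib (hHi i).hm hdj rfl j.2.1.odd
        (fun w hw1 hw2 => j.2.1.sq w (EU.mono' (hle i) ⟨hw1, hw2⟩)) (hL i).rcf hM.rcf hLiM
    obtain ⟨τ', hτ'1, hτ'2, hτ'L⟩ := exists_involution hLiM heven
    have hfixL := (res_eq_one_iff hLiM τ').1 hτ'L
    have hASτ := hBim i j.1 hjB hdj j.2.1.not_dvd hM τ' hfixL
    have hfix : ∀ x ∈ F i ⊔ F j, act τ' x = x := by
      have h1 : F i ⊔ F j ≤ eqField τ' 1 := by
        refine sup_le ?_ ?_
        · intro x hx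
          refine ⟨hLiM (hFL i hx), ?_⟩
          rw [hfixL x (hFL i hx), act_one_left (hLiM (hFL i hx))]
        · intro x hx
          refine ⟨hLjM (hFL j hx), ?_⟩
          rw [act_one_left (hLjM (hFL j hx)), ← act_res hLjM τ' (hFL j hx)]
          by_cases hτ'' : res hLjM τ' = 1
          · rw [hτ'', act_one_left (hFL j hx)]
          · have h2 : res (hHL j) (res hLjM τ') = 1 := by
              rw [res_res, ← res_res (hHL i) hLiM, hτ'L, map_one]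
            have h3 : res hLjM τ' = τ := eq_of_involution h.hm (hdvd j) hd.rcf (hL j).rcf (hHL j)
              h2 hτH (by rw [← map_mul, hτ'2, map_one]) hτ2 hτ'' hτ
            rw [h3]
            rw [hFj] at hx
            exact (mem_lift_fixedField _ (IntermediateField.lift_le _ hx)).1 hx τ
              (Subgroup.mem_zpowers τ)
      intro x hx
      have h2 := (h1 hx).2
      rwa [act_one_left (h1 hx).1] at h2
    have hres := (res_eq_one_iff hsup τ').2 hfix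
    have eprod := ez_prod h.h2 h.hσ hHM.hm hHM.hm1 ArtM
    exact ⟨PF.of_even hsup hM.ratio eprod (even_of_involution hsup hτ'1 hτ'2 hres),
      as_pf_of_inv hsup hM.ratio eprod hτ'1 hτ'2 hres hASτ 1⟩

end Pool.Agent.STf
end
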