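import Mathlib.Analysis.SpecialFunctions.Trigonometric.Chebyshev.Basic
import Pool.Agent.Lib.MP_1ef7cf_nt_f.TX
import Pool.Agent.Lib.MP_1ef7cf_nt_g.Mg.G043
import Pool.Agent.Lib.MP_1ef7cf_nt_g.Mg.G028
import Pool.Agent.Lib.MP_1ef7cf_nt_h.V6
import Pool.Agent.Lib.MP_1ef7cf_nt_h.Mg.G013

section

/-!
# The local form: a single level of the cyclotomic tower over a 2-extension
-/

set_option linter.unusedSectionVars false

open NumberField IsDedekindDomain nonZeroDivisors IntermediateField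

namespace Pool.Agent.STf

open Pool.Agent.ST Pool.Agent.STb Pool.Agent.STd

section cos

/-- the roots of `pp n` -/
lemma root_eq_cos {n : ℕ} {r : ℝ} (h : (sqm^[n]) r = 0) :
    ∃ a : ℤ, r = 2 * Real.cos (a * (2 * Real.pi / 2 ^ (n + 2))) := by
  induction n generalizing r with
  | zero =>
    simp only [Function.iterate_zero, id_eq] at h
    refine ⟨1, ?_⟩
    have h1 : ((1 : ℤ) : ℝ) * (2 * Real.pi / 2 ^ (0 + 2)) = Real.pi / 2 := by
      push_cast; norm_num; ring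
    rw [h1, Real.cos_pi_div_two, h, mul_zero]
  | succ n ih =>
    rw [Function.iterate_succ, Function.comp_apply] at h
    obtain ⟨a, ha⟩ := ih h
    have h1 : (a : ℝ) * (2 * Real.pi / 2 ^ (n + 2)) = 2 * (a * (2 * Real.pi / 2 ^ (n + 1 + 2))) := by
      field_simp
      ring
    have h2 : r ^ 2 = (2 * Real.cos (a * (2 * Real.pi / 2 ^ (n + 1 + 2)))) ^ 2 := by
      unfold sqm at ha
      rw [h1, Real.cos_two_mul] at ha
      linear_combination ha
    rcases sq_eq_sq_iff_eq_or_eq_neg.1 h2 with h3 | h3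
    · exact ⟨a, h3⟩
    · refine ⟨2 ^ (n + 2) - a, ?_⟩
      have h4 : (((2 ^ (n + 2) - a : ℤ)) : ℝ) * (2 * Real.pi / 2 ^ (n + 1 + 2)) =
          Real.pi - a * (2 * Real.pi / 2 ^ (n + 1 + 2)) := by
        push_cast
        have h5 : (2 : ℝ) ^ (n + 1 + 2) = 2 * 2 ^ (n + 2) := by ring
        rw [h5]
        field_simp
      rw [h4, Real.cos_pi_sub, h3]
      ring

variable {K : Type*} [Field K] [NumberField K] [Algebra K ℝ]

lemma coe_eval_C (n : ℕ) (x : CK K n) (a : ℤ) :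
    ((Polynomial.eval x (Polynomial.Chebyshev.C (CK K n) a) : CK K n) : ℝ) =
      Polynomial.eval (x : ℝ) (Polynomial.Chebyshev.C ℝ a) :=
  Polynomial.Chebyshev.algebraMap_eval_C (R := CK K n) (R' := ℝ) x a

lemma cos_mem_CK (n : ℕ) (a : ℤ) : 2 * Real.cos (a * (2 * Real.pi / 2 ^ (n + 2))) ∈ CK K n := by
  rw [← Polynomial.Chebyshev.C_two_mul_real_cos, ← cc_eq_cos,
    ← coe_eval_C n (⟨cc n, cc_mem_CK n⟩ : CK K n)]
  exact SetLike.coe_mem _

/-- the Galois action -/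
lemma act_cos {n : ℕ} (γ : CK K n ≃ₐ[K] CK K n) {p : ℤ}
    (hp : act γ (cc n) = 2 * Real.cos (p * (2 * Real.pi / 2 ^ (n + 2)))) (a : ℤ) :
    act γ (2 * Real.cos (a * (2 * Real.pi / 2 ^ (n + 2)))) =
      2 * Real.cos ((a * p : ℤ) * (2 * Real.pi / 2 ^ (n + 2))) := by
  set x : CK K n := ⟨cc n, cc_mem_CK n⟩ with hx
  have h2 : 2 * Real.cos (a * (2 * Real.pi / 2 ^ (n + 2))) =
      ((Polynomial.eval x (Polynomial.Chebyshev.C (CK K n) a) : CK K n) : ℝ) := by
    rw [coe_eval_C]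
    change _ = Polynomial.eval (cc n) (Polynomial.Chebyshev.C ℝ a)
    rw [cc_eq_cos, Polynomial.Chebyshev.C_two_mul_real_cos]
  have h3 : γ (Polynomial.eval x (Polynomial.Chebyshev.C (CK K n) a)) =
      Polynomial.eval (γ x) (Polynomial.Chebyshev.C (CK K n) a) := by
    rw [← Polynomial.Chebyshev.aeval_C (R := K), ← Polynomial.Chebyshev.aeval_C (R := K)]
    exact (Polynomial.aeval_algHom_apply (γ : CK K n →ₐ[K] CK K n) x _).symm
  have h4 : ((γ x : CK K n) : ℝ) = act γ (cc n) := by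
    rw [act_of_mem _ (cc_mem_CK n)]
  rw [h2, act_coe, h3, coe_eval_C, h4, hp, Polynomial.Chebyshev.C_two_mul_real_cos]
  congr 2
  push_cast
  ring

lemma isAbelianGalois_CK (n : ℕ) : IsAbelianGalois K (CK K n) := by
  apply isAbelianGalois_of_comm
  intro γ δ
  -- the images of the generator
  have hroot : ∀ τ : CK K n ≃ₐ[K] CK K n, (sqm^[n]) (act τ (cc n)) = 0 := by
    intro τ
    have h1 : ∀ (i : ℕ) (y : CK K n), (sqm^[i]) ((τ y : CK K n) : ℝ) =
        ((τ ((sqm^[i]) y) : CK K n) : ℝ) := by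
      intro i
      induction i with
      | zero => intro y; rfl
      | succ i ih =>
        intro y
        rw [Function.iterate_succ, Function.comp_apply, Function.iterate_succ,
          Function.comp_apply, ← ih]
        congr 1
        unfold sqm
        rw [map_sub, map_pow, map_ofNat]
        rfl
    have h2 : ∀ (i : ℕ) (y : CK K n), (((sqm^[i]) y : CK K n) : ℝ) = (sqm^[i]) (y : ℝ) := by
      intro i
      induction i with
      | zero => intro y; rfl
      | succ i ih =>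
        intro y
        rw [Function.iterate_succ, Function.comp_apply, Function.iterate_succ,
          Function.comp_apply, ih]
        rfl
    rw [act_of_mem _ (cc_mem_CK n), h1]
    have h3 : (sqm^[n]) (⟨cc n, cc_mem_CK n⟩ : CK K n) = 0 := by
      apply Subtype.ext
      rw [h2]
      have := iter_cc n 0
      rw [add_zero, cc_zero] at this
      exact this
    rw [h3, map_zero]
    rfl
  obtain ⟨p, hp⟩ := root_eq_cos (hroot γ)
  obtain ⟨q, hq⟩ := root_eq_cos (hroot δ)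
  -- the field generated by the roots is in the equalizer
  have hle : CK K n ≤ eqField (γ * δ) (δ * γ) := by
    apply adjoin_le_iff.2
    intro r hr
    obtain ⟨a, rfl⟩ := root_eq_cos (mem_rootSet_iff.1 hr)
    have hm := cos_mem_CK (K := K) n a
    refine ⟨hm, ?_⟩
    rw [act_comp _ _ hm, act_comp _ _ hm, act_cos γ hp, act_cos δ hq, act_cos γ hp, act_cos δ hq]
    congr 3
    push_cast
    ring
  apply act_ext
  intro x hx
  exact (hle hx).2

lemma twK_le_sup (L : IntermediateField K ℝ) (n : ℕ) : twK L n ≤ L ⊔ CK K n :=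
  twK_le le_sup_left ((le_sup_right : CK K n ≤ L ⊔ CK K n) (cc_mem_CK n))

lemma fd_twK (L : IntermediateField K ℝ) [FiniteDimensional K L] (n : ℕ) :
    FiniteDimensional K (twK L n) := by
  have : FiniteDimensional K (L ⊔ CK K n : IntermediateField K ℝ) := inferInstance
  exact fd_of_le (twK_le_sup L n)

lemma ab_twK (L : IntermediateField K ℝ) [IsAbelianGalois K L] (n : ℕ) :
    IsAbelianGalois K (twK L n) := by
  have := isAbelianGalois_CK (K := K) n
  have : IsAbelianGalois K (L ⊔ CK K n : IntermediateField K ℝ) := isAbelianGalois_sup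
  exact isAbelianGalois_of_le (twK_le_sup L n)

end cos

section tower

/-- the tower does not become stationary once it has grown -/
lemma cc_notMem_succ {E : IntermediateField ℚ ℝ} {n : ℕ} (ih : cc (n + 1) ∉ tw E n) :
    cc (n + 2) ∉ tw E (n + 1) := by
  intro h
  have h' : cc (n + 2) ∈ STb.ext (tw E n) (cc (n + 1)) := by rw [← tw_succ]; exact h
  obtain ⟨a, ha, b, hb, hab⟩ := (mem_ext_iff (sq_mem_tw _ n) ih).1 h'
  have h1 := cc_sq (n + 1)
  have h0 := cc_sq n
  have hc := cc_mem_tw E n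
  have h2 : 2 + 1 * cc (n + 1) = (a ^ 2 + b ^ 2 * (2 + cc n)) + (2 * a * b) * cc (n + 1) := by
    have : cc (n + 2) ^ 2 = 2 + cc (n + 1) := h1
    rw [hab] at this
    linear_combination -this + b ^ 2 * h0
  have h2m : (2 : ℝ) ∈ tw E n := ofNat_mem _ 2
  obtain ⟨h3, h4⟩ := coords_unique ih h2m (one_mem _)
    (add_mem (pow_mem ha 2) (mul_mem (pow_mem hb 2) (add_mem h2m hc)))
    (mul_mem (mul_mem h2m ha) hb) h2
  have h5 : (a ^ 2 - b ^ 2 * (2 + cc n)) ^ 2 = dd n ^ 2 := by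
    rw [dd_sq]
    have : (a ^ 2 - b ^ 2 * (2 + cc n)) ^ 2 =
      (a ^ 2 + b ^ 2 * (2 + cc n)) ^ 2 - (2 * a * b) ^ 2 * (2 + cc n) := by ring
    rw [this, ← h3, ← h4]; ring
  have h6 : dd n ∈ tw E n := by
    have h7 : a ^ 2 - b ^ 2 * (2 + cc n) ∈ tw E n :=
      sub_mem (pow_mem ha 2) (mul_mem (pow_mem hb 2) (add_mem h2m hc))
    rcases sq_eq_sq_iff_eq_or_eq_neg.1 h5 with h8 | h8
    · rw [← h8]; exact h7
    · have : dd n = -(a ^ 2 - b ^ 2 * (2 + cc n)) := by linear_combination h8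
      rw [this]; exact neg_mem h7
  obtain ⟨r, hr, hr0, hr1⟩ := dd_eq n
  apply ih
  have : cc (n + 1) = dd n / r := by rw [hr1]; field_simp
  rw [this]; exact div_mem h6 (tw_mono_left bot_le n hr)

variable {K : Type*} [Field K] [NumberField K] [Algebra K ℝ] {σ₂ : K →+* ℝ}

lemma exists_forall_not_mem (L : IntermediateField K ℝ) [FiniteDimensional K L] :
    ∃ n₀, ∀ n ≥ n₀, cc (n + 1) ∉ twK L n := by
  obtain ⟨n₀, -, h⟩ := exists_not_mem L 0 (fd_twK L)
  refine ⟨n₀, fun n hn => ?_⟩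
  induction n, hn using Nat.le_induction with
  | base => exact h
  | succ n _ ih =>
    have h1 : cc (n + 1) ∉ tw (rs L) n := by
      rw [← rs_twK]; exact ih
    have h2 := cc_notMem_succ h1
    rw [← rs_twK] at h2
    exact h2

attribute [local instance] fd_twK ab_twK

/-- **Local form.** The norm to the next lower level is a square in the tower, at all high levels. -/
theorem exists_level_sq (h2 : Module.finrank ℚ K = 2) (hσ : σ₂ ≠ sg1 K)
    {L : IntermediateField K ℝ} (hr : ∃ r : ℕ, Module.finrank K L = 2 ^ r)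
    [FiniteDimensional K L] [IsAbelianGalois K L] :
    ∃ n₀ : ℕ, ∀ n ≥ n₀, ∀ x : ℝ, PreStark σ₂ (twK L (n + 1)) x →
      ∃ Q, n ≤ Q ∧ ∃ y ∈ twK L Q, fibProd (twK_mono L (Nat.le_succ n)) x 1 = y ^ 2 := by
  classical
  -- conjugation
  obtain ⟨γ, hγ⟩ := exists_isConj (L := L) σ₂
  obtain ⟨n₁, hn₁⟩ := exists_forall_not_mem L
  by_cases hγ1 : γ = 1
  · refine ⟨0, fun n _ x hx => ⟨n, le_rfl, 1, one_mem _, ?_⟩⟩
    -- conjugation is trivial on the tower
    obtain ⟨γ', hγ'⟩ := exists_isConj (L := twK L (n + 1)) σ₂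
    have h1 : γ' = 1 := by
      apply act_ext
      intro y hy
      rw [act_one_left hy]
      have h3 : twK L (n + 1) ≤ eqField γ' 1 := by
        apply twK_le
        · intro z hz
          refine ⟨le_twK L _ hz, ?_⟩
          rw [act_one_left (le_twK L _ hz)]
          have h4 := hγ'.res (le_twK L (n + 1))
          have h5 := h4.unique hγ
          rw [← act_res (le_twK L (n + 1)) γ' hz, h5, hγ1, act_one_left hz]
        · refine ⟨cc_mem_twK L _, ?_⟩
          rw [act_one_left (cc_mem_twK L _)]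
          exact hγ'.fix_cc (cc_mem_twK L _)
      have := (h3 hy).2
      rwa [act_one_left hy] at this
    have h3 := hx.conj hγ'
    rw [h1, act_one_left hx.mem] at h3
    have hpos := hx.pos'
    have h4 : x = 1 := by
      have h5 : x * x = 1 := by
        nth_rw 2 [h3]
        exact mul_inv_cancel₀ hpos.ne'
      nlinarith
    rw [h4, one_pow]
    unfold fibProd
    exact Finset.prod_eq_one fun δ _ => act_one_right δ
  obtain ⟨θ, D, hD, hp⟩ := exists_par hγ hγ1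
  set F := eqField γ 1 with hF
  have hFL : F ≤ L := fun y hy => hy.1
  have hfF : FiniteDimensional K F := fd_of_le hFL
  have haF : IsAbelianGalois K F := isAbelianGalois_of_le hFL
  have hTRF : TR (rs F) := TR_fixed h2 hσ hγ
  -- finiteness
  have hFIN : FIN D (tinf (rs F)) := by
    apply chain (FINA_K0 h2 hσ) (Module.finrank K F) F rfl ?_ inferInstance hTRF.tinf D hD
    obtain ⟨r, hr⟩ := hr
    have hdvd := finrank_dvd_of_le hFL
    rw [hr] at hdvd
    obtain ⟨s, -, hs⟩ := (Nat.dvd_prime_pow Nat.prime_two).1 hdvd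
    exact ⟨s, hs⟩
  obtain ⟨T, hT⟩ := hFIN
  obtain ⟨N, hNT⟩ := mem_finset_tw (E := rs F) (T.filter (· ∈ tinf (rs F)))
    (fun t ht => (Finset.mem_filter.1 ht).2)
  refine ⟨max N n₁, fun n hn x hx => ?_⟩
  have hnN : N ≤ n := (le_max_left _ _).trans hn
  have hcn : cc (n + 1) ∉ twK L n := hn₁ n ((le_max_right _ _).trans hn)
  -- the good element
  have hgood := (hp.good h2 hσ (n + 1) hx).mono (tw_le_tinf _ _)
  obtain ⟨t, htT, s, hs, hs0, hts⟩ := hT _ hgood
  have hx0 := hx.pos'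
  have ha0 : 2 + x + x⁻¹ ≠ 0 := by positivity
  have ht0 : t ≠ 0 := by
    rintro rfl
    rw [zero_mul] at hts
    exact ha0 hts
  have htm : t ∈ tinf (rs F) := by
    have : t = (2 + x + x⁻¹) / s ^ 2 := by rw [hts]; field_simp
    rw [this]; exact div_mem hgood.mem (pow_mem hs 2)
  have htN : t ∈ tw (rs F) N := hNT t (Finset.mem_filter.2 ⟨htT, htm⟩)
  have htn : t ∈ twK L n := by
    have h3 : tw (rs F) N ≤ rs (twK L n) := by
      rw [rs_twK]
      exact (tw_mono _ hnN).trans (tw_mono_left (rs_mono hFL) n)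
    exact h3 htN
  obtain ⟨P, hsP⟩ := mem_tinf.1 hs
  set Q := max P (n + 1) with hQ
  have hsQ : s ∈ twK L Q := by
    have h3 : tw (rs F) P ≤ rs (twK L Q) := by
      rw [rs_twK]
      exact (tw_mono _ (le_max_left _ _)).trans (tw_mono_left (rs_mono hFL) Q)
    exact h3 hsP
  have hnQ : n + 1 ≤ Q := le_max_right _ _
  -- x = t w ^ 2
  have hxn : x = t * ((1 + x) / (t * s)) ^ 2 := by
    have h3 : (1 + x) ^ 2 = x * (t * s ^ 2) := by
      rw [← hts]; field_simp; ring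
    rw [div_pow, h3]
    field_simp
  have hle1 := twK_mono L (Nat.le_succ n)
  have hleQ := twK_mono L hnQ
  have hxm : x ∈ twK L (n + 1) := hx.mem
  have hwm : (1 + x) / (t * s) ∈ twK L Q :=
    div_mem (add_mem (one_mem _) (hleQ hxm)) (mul_mem (hleQ (hle1 htn)) hsQ)
  obtain ⟨w, hw, hw2⟩ := norm_sq hle1 hleQ htn hwm (by rw [← hxn]; exact hxm)
  rw [← hxn, card_fib_two hcn] at hw2
  refine ⟨Q, by omega, t * w, mul_mem (hleQ (hle1 htn)) hw, ?_⟩
  rw [hw2]; ring

/-- the square root condition for the norms -/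
theorem exists_level (h2 : Module.finrank ℚ K = 2) (hσ : σ₂ ≠ sg1 K)
    {L : IntermediateField K ℝ} (hr : ∃ r : ℕ, Module.finrank K L = 2 ^ r)
    [FiniteDimensional K L] [IsAbelianGalois K L] :
    ∃ n₀ : ℕ, ∀ n ≥ n₀, ∀ x : ℝ, PreStark σ₂ (twK L (n + 1)) x →
      ∀ (L' : IntermediateField K ℝ) [Normal K L'] (h : L' ≤ twK L n),
        IsAbelianGalois K (sqrtExt L' (fibProd (h.trans (twK_mono L (Nat.le_succ n))) x 1)) := by
  obtain ⟨n₀, hn₀⟩ := exists_level_sq h2 hσ hr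
  refine ⟨n₀, fun n hn x hx L' _ h => ?_⟩
  obtain ⟨Q, hnQ, y, hy, hy2⟩ := hn₀ n hn x hx
  have hle := twK_mono L (Nat.le_succ n)
  have hm : fibProd hle x 1 ∈ twK L n := fibProd_mem_base hle hx.mem 1
  rw [hy2] at hm
  obtain ⟨w, hw, hw2⟩ := norm_sq h (twK_mono L hnQ) (one_mem L') hy (by rw [one_mul]; exact hm)
  rw [one_pow, one_mul, one_mul, ← hy2, fibProd_trans h hle hx.mem] at hw2
  rw [hw2]
  apply isAbelianGalois_of_le (M := twK L Q)
  apply sqrtExt_le (h.trans (twK_mono L hnQ))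
  rw [Real.sqrt_sq_eq_abs]
  rcases abs_choice w with h | h <;> rw [h]
  · exact hw
  · exact neg_mem hw

/-- **The local theorem for the tower over a 2-extension.** -/
theorem tower_local (hK : Module.finrank ℚ K = 2) (hσ : σ₂ ≠ algebraMap K ℝ)
    (L : IntermediateField K ℝ) [FiniteDimensional K L] [IsAbelianGalois K L]
    (hr : ∃ r : ℕ, Module.finrank K L = 2 ^ r) :
    ∃ k₀ : ℕ, ∀ k ≥ k₀, ∀ m M : Ideal (𝓞 K), M ≠ ⊥ → m ≠ ⊤ → m ∣ M →
      (∀ v : HeightOneSpectrum (𝓞 K), v.asIdeal ∣ M → v.asIdeal ∣ m) →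
      StarkRQ.StarkIn σ₂ M (StarkRQ.layer L k) →
      ∀ j < k, ∀ (H : IntermediateField K ℝ) (Art : RayClassGroup σ₂ m ≃* (H ≃ₐ[K] H)),
      IsRayClassField σ₂ m H Art → StarkRQ.layer L j ≤ H →
      StarkRQ.StarkTateIn σ₂ m (StarkRQ.layer L j) := by
  obtain ⟨n₀, hn₀⟩ := exists_level (σ₂ := σ₂) hK hσ hr
  refine ⟨n₀ + 3, fun k hk m M hM hm1 hmM hdvd hst j hj H Art hH hjH => ?_⟩
  obtain ⟨n, rfl⟩ : ∃ n, k = n + 3 := ⟨k - 3, by omega⟩
  have hn : n₀ ≤ n := by omega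
  have hle : M ≤ m := Ideal.le_of_dvd hmM
  have hm : m ≠ ⊥ := fun h => hM (le_bot_iff.1 (h ▸ hle))
  obtain ⟨x, hx⟩ := td_of_starkIn hst
  have hlk : StarkRQ.layer L (n + 3) = twK L (n + 1) := layer_eq L (n + 3)
  have hlj : StarkRQ.layer L j = twK L (j - 2) := layer_eq L j
  rw [hlk] at hx
  rw [hlj] at hjH ⊢
  have hjn : twK L (j - 2) ≤ twK L n := twK_mono L (by omega)
  have hX := hx.down hK hσ hle hM hm hm1 hdvd hH hjH (hjn.trans (twK_mono L (Nat.le_succ n)))
  exact starkTateIn_of_td hK hσ hm hm1 hX (hn₀ n hn x hx.pre (twK L (j - 2)) hjn)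

/-- If the ray class group of modulus `m ∞₂` has order a power of two, Q1 for `(K, m)` follows from
`Stark(K, m 2 ^ k)` for a single `k ≥ k₀`. -/
theorem starkTate_of_single (hK : Module.finrank ℚ K = 2) (hσ : σ₂ ≠ algebraMap K ℝ)
    {m : Ideal (𝓞 K)} (hm : m ≠ ⊥)
    (hm2 : ∀ v : HeightOneSpectrum (𝓞 K), (2 : 𝓞 K) ∈ v.asIdeal → v.asIdeal ∣ m)
    {H : IntermediateField K ℝ} {Art : RayClassGroup σ₂ m ≃* (H ≃ₐ[K] H)}
    (hH : IsRayClassField σ₂ m H Art) (hr : ∃ r : ℕ, Module.finrank K H = 2 ^ r) :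
    ∃ k₀ : ℕ, ∀ k ≥ k₀, StarkRQ.Stark σ₂ (m * Ideal.span {2} ^ k) → StarkRQ.StarkTate σ₂ m := by
  have hm1 := ne_top_of_two hm2
  have hfH := hH.finite
  have habH : IsAbelianGalois K H := hH.isRCF.abelian
  obtain ⟨k₀, hk₀⟩ := tower_local hK hσ H hr
  refine ⟨k₀ + 2, fun k hk hst => ?_⟩
  have hM : m * Ideal.span {(2 : 𝓞 K)} ^ k ≠ ⊥ := mul_ne_bot' hm (pow_ne_bot' span_two_ne_bot _)
  have hMm : m * Ideal.span {(2 : 𝓞 K)} ^ k ≤ m := Ideal.mul_le_left
  have hM1 : m * Ideal.span {(2 : 𝓞 K)} ^ k ≠ ⊤ := ne_top_of_le hMm hm1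
  obtain ⟨H', Art', Z, ε, hr', -⟩ := id hst
  have hr'' := (StarkRQ.isRayClassField_iff σ₂ _ H' Art').1 hr'
  have hHH : H ≤ H' := IsRCF.le hMm hM Set.finite_empty Set.finite_empty hr''.isRCF hH.isRCF
  have hlay : StarkRQ.layer H k ≤ H' := by
    rw [layer_eq]
    refine twK_le hHH (cc_mem_rcf hK hσ ?_ hM hr'')
    have h3 : k - 2 + 2 = k := by omega
    rw [h3, ← Ideal.span_singleton_pow]
    exact Ideal.mul_le_right
  have h1 := starkIn_of_stark hK hσ hM hM1 hst hr'' hlay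
  have h2 := hk₀ k (by omega) m _ hM hm1 (dvd_mul_right _ _) (fun v hv => dvd_level hm2 hv) h1 0
    (by omega) H Art hH (by rw [layer_zero])
  rw [layer_zero] at h2
  exact starkTate_of_in hm hH h2

end tower

end Pool.Agent.STf
end

section

/-!
# Norms up to squares
-/

open NumberField IsDedekindDomain Pool.Agent.ST Pool.Agent.STb Pool.Agent.STf IntermediateField

namespace Pool.Agent.STh

open Pool.Agent.STg Pool.Agent.STh.F

variable {K : Type*} [Field K] [NumberField K] [Algebra K ℝ] {σ₂ : K →+* ℝ} {a : 𝓞 K}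

/-- **The subfield of `2`-power degree.** `G = Gal(L / K)` is a finite abelian group; `T` = the subgroup of the elements of
odd order, `L₂` the subfield of `L` fixed by `T` (as a subfield of `ℝ`: `x ∈ L₂` iff `x ∈ L` and `act δ x = x` for all `δ ∈ T`; lift of
`IntermediateField.fixedField`). The index of `T` is a power of `2`. -/
lemma exists_L2 (L : IntermediateField K ℝ) [FiniteDimensional K L] [IsAbelianGalois K L] :
    ∃ (L₂ : IntermediateField K ℝ) (_ : IsAbelianGalois K L₂) (h : L₂ ≤ L),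
      (∃ r : ℕ, Module.finrank K L₂ = 2 ^ r) ∧
      ∀ δ : L ≃ₐ[K] L, res h δ = 1 → Odd (orderOf δ) := by
  classical
  obtain ⟨r, m, hm, hrm⟩ := Nat.exists_eq_two_pow_mul_odd
    (Nat.card_pos (α := (L ≃ₐ[K] L))).ne'
  let _ : CommGroup (L ≃ₐ[K] L) :=
    { (inferInstance : Group (L ≃ₐ[K] L)) with
      mul_comm := fun x y => IsMulCommutative.is_comm.comm x y }
  set T : Subgroup (L ≃ₐ[K] L) := (powMonoidHom m : (L ≃ₐ[K] L) →* (L ≃ₐ[K] L)).ker with hT
  have hmemT : ∀ δ : L ≃ₐ[K] L, δ ∈ T → Odd (orderOf δ) := by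
    intro δ hδ
    have h1 : δ ^ m = 1 := hδ
    exact Odd.of_dvd_nat hm (orderOf_dvd_of_pow_eq_one h1)
  have hidx : ∃ j : ℕ, T.index = 2 ^ j := by
    rw [hT, Subgroup.index_ker]
    have h2 : IsPGroup 2 (powMonoidHom m : (L ≃ₐ[K] L) →* (L ≃ₐ[K] L)).range := by
      rintro ⟨y, x, rfl⟩
      refine ⟨r, ?_⟩
      apply Subtype.ext
      show (x ^ m) ^ 2 ^ r = 1
      rw [← pow_mul, mul_comm, ← hrm]
      exact pow_card_eq_one'
    exact (IsPGroup.iff_card).1 h2
  set F : IntermediateField K L := IntermediateField.fixedField T with hF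
  have hLF : IntermediateField.lift F ≤ L := IntermediateField.lift_le F
  refine ⟨IntermediateField.lift F, ?_, hLF, ?_, ?_⟩
  · exact IsAbelianGalois.of_algHom (IntermediateField.inclusion hLF)
  · obtain ⟨j, hj⟩ := hidx
    refine ⟨j, ?_⟩
    rw [← (IntermediateField.liftAlgEquiv F).toLinearEquiv.finrank_eq,
      IntermediateField.finrank_eq_fixingSubgroup_index, hF,
      IntermediateField.fixingSubgroup_fixedField, hj]
  · intro δ hδ
    apply hmemT
    rw [← IntermediateField.fixingSubgroup_fixedField T, IntermediateField.mem_fixingSubgroup_iff]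
    intro x hx
    have hnorm : IsAbelianGalois K (IntermediateField.lift F) :=
      IsAbelianGalois.of_algHom (IntermediateField.inclusion hLF)
    have h1 := (res_eq_one_iff hLF δ).1 hδ (x : ℝ)
      ((IntermediateField.mem_lift (F := L) (E := F) x).2 hx)
    rw [act_coe] at h1
    exact Subtype.ext h1

/-- the fibre over `1` has odd cardinality if all its elements have odd order (Cauchy's theorem) -/
lemma odd_fib {L L₂ : IntermediateField K ℝ} [FiniteDimensional K L] [IsAbelianGalois K L]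
    [Normal K L₂] (h : L₂ ≤ L) (hodd : ∀ δ : L ≃ₐ[K] L, res h δ = 1 → Odd (orderOf δ)) :
    Odd (fib h (1 : L₂ ≃ₐ[K] L₂)).card := by
  classical
  by_contra hcon
  rw [Nat.not_odd_iff_even] at hcon
  have h1 : (fib h (1 : L₂ ≃ₐ[K] L₂)).card = Nat.card (res h).ker := by
    have e : fib h (1 : L₂ ≃ₐ[K] L₂) = ((res h).ker : Set (L ≃ₐ[K] L)).toFinset := by
      ext δ
      rw [mem_fib, Set.mem_toFinset]
      exact Iff.rfl
    rw [e, Set.toFinset_card, ← Nat.card_eq_fintype_card]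
    rfl
  rw [h1] at hcon
  have h2 : 2 ∣ Nat.card (res h).ker := even_iff_two_dvd.1 hcon
  obtain ⟨δ, hδ⟩ := exists_prime_orderOf_dvd_card' (G := (res h).ker) 2 h2
  have h3 := hodd δ.1 δ.2
  rw [Subgroup.orderOf_coe, hδ] at h3
  exact absurd h3 (by decide)

/-- the norm is in the subfield -/
lemma Z3b_mem {L F : IntermediateField K ℝ} [FiniteDimensional K F] [IsAbelianGalois K F]
    [Normal K L] (h : L ≤ F) {u : ℝ} (hu : u ∈ F) : fibProd h u 1 ∈ L := by
  apply mem_of_fixed h (fibProd_mem h hu 1)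
  intro γ hγ
  rw [act_fibProd h hu 1 γ, (res_eq_one_iff h γ).2 hγ, one_mul]

/-- **Squares.** `δ = δ' ^ 2` since its order is odd; let `τ` be an extension of `δ'` to `F = Lf a (M k)` (`res_surjective`) with coordinates
`s`, `b` (`exists_coords`). `act (τ ^ 2) (xv 1) = xv (1, nu b ^ 2)` (`act_gf`, `isGF_xv_all`, `act_comp`) `= xv 1 * y ^ 2`, `y ∈ F`
(`xv_square` with `s = 1`, `x = 1`). So `act δ (fibProd (xv 1) 1)` (`act_fibProd`, translate the fibre by `τ ^ 2`) is the product of the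
`act ρ (act (τ ^ 2) (xv 1)) = act ρ (xv 1) (act ρ y) ^ 2` over the `ρ` in the fibre of `1`. -/
lemma act_square (U : UD) (D : FD σ₂ U.d a) {k J : ℕ} (hJ : k + 1 ≤ J) (hJ2 : 2 ≤ J)
    {L : IntermediateField K ℝ} [Normal K L] (hLF : L ≤ Lf a (U.M k)) {δ : L ≃ₐ[K] L}
    (hδ : Odd (orderOf δ)) : ∃ y ∈ Lf a (U.M k), y ≠ 0 ∧
      act δ (fibProd hLF (xv U k J 1) 1) = fibProd hLF (xv U k J 1) 1 * y ^ 2 := by
  classical
  have hgf := isGF_xv_all U hJ hJ2
  have hmem : ∀ g, xv U k J g ∈ Lf a (U.M k) := fun g => (mem_Lf_iff U D k _).2 (hgf.mem g)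
  obtain ⟨t, ht⟩ := hδ
  obtain ⟨τ, hτ⟩ := res_surjective hLF (δ ^ (t + 1))
  have hτ2 : res hLF (τ * τ) = δ := by
    rw [map_mul, hτ, ← pow_add]
    have h1 : t + 1 + (t + 1) = orderOf δ + 1 := by omega
    rw [h1, pow_succ, pow_orderOf_eq_one, one_mul]
  obtain ⟨s, b, hb4, hb, hco⟩ := exists_coords U D τ
  have hs2 : sg s * sg s = 1 := by
    rw [← map_mul]
    rcases Int.units_eq_one_or s with h | h
    · rw [h, one_mul, map_one]
    · rw [h, neg_mul_neg, one_mul, map_one]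
  have hact : act (τ * τ) (xv U k J 1) = xv U k J ((1, nu (U.M k) b ^ 2) * (sg 1, 1)) := by
    rw [act_comp _ _ (hmem 1), act_gf U D hgf τ hb4 hb hco, act_gf U D hgf τ hb4 hb hco]
    congr 1
    rw [mul_one, map_one]
    ext1
    · simp only [Prod.fst_mul, hs2, mul_one]
    · simp only [Prod.snd_mul, mul_one, pow_two]
  obtain ⟨y, hy, hxy⟩ := xv_square U hJ hJ2 hb4 hb 1 1
  have h11 : ((sg 1, 1) : Gam (U.M k)) = 1 := by
    rw [map_one]
    rfl
  rw [hxy, h11] at hact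
  have hyF : y ∈ Lf a (U.M k) := (mem_Lf_iff U D k _).2 hy
  have hy0 : y ≠ 0 := by
    rintro rfl
    rw [h11] at hxy
    have h1 := hgf.pos ((1, nu (U.M k) b ^ 2) * 1)
    rw [hxy] at h1
    simp at h1
  refine ⟨∏ γ ∈ fib hLF (1 : L ≃ₐ[K] L), act γ y, prod_mem fun γ _ => act_mem γ hyF,
    Finset.prod_ne_zero_iff.2 fun γ _ => act_ne_zero γ hyF hy0, ?_⟩
  have hxL : fibProd hLF (xv U k J 1) 1 ∈ L := Z3b_mem hLF (hmem 1)
  have hcomm : ∀ x y : Lf a (U.M k) ≃ₐ[K] Lf a (U.M k), x * y = y * x := fun x y =>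
    IsMulCommutative.is_comm.comm x y
  calc act δ (fibProd hLF (xv U k J 1) 1) = act (τ * τ) (fibProd hLF (xv U k J 1) 1) := by
        rw [← act_res hLF (τ * τ) hxL, hτ2]
    _ = ∏ γ ∈ fib hLF (1 : L ≃ₐ[K] L), act (τ * τ) (act γ (xv U k J 1)) := by
        unfold fibProd
        rw [act_prod _ _ _ fun γ _ => act_mem γ (hmem 1)]
    _ = ∏ γ ∈ fib hLF (1 : L ≃ₐ[K] L), (act γ (xv U k J 1) * act γ y ^ 2) := by
        refine Finset.prod_congr rfl fun γ _ => ?_
        rw [← act_comp _ _ (hmem 1), hcomm, act_comp _ _ (hmem 1), hact,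
          act_mul γ (hmem 1) (pow_mem hyF 2), act_pow γ hyF]
    _ = fibProd hLF (xv U k J 1) 1 * (∏ γ ∈ fib hLF (1 : L ≃ₐ[K] L), act γ y) ^ 2 := by
        rw [Finset.prod_mul_distrib, Finset.prod_pow]
        rfl

/-- **The norm to `L` is the norm to `L₂` up to a square of `F`.** Let `x_L = fibProd hLF (xv 1) 1`. Then
`x_(L₂) = fibProd h x_L 1` (`fibProd_trans`) is the product of the `act δ x_L`, `δ` in the fibre of `1`; the number of the `δ` is odd
(`odd_fib`), `= 2 j + 1`. By `act_square`: `x_(L₂) = x_L ^ (2 j + 1) * y ^ 2`, so `x_L = x_(L₂) * (x_L ^ (-j) / y) ^ 2`; take absolute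
values (`x_L ∈ L ≤ F`). -/
theorem norm_square (U : UD) (D : FD σ₂ U.d a) {k J : ℕ} (hJ : k + 1 ≤ J) (hJ2 : 2 ≤ J)
    {L L₂ : IntermediateField K ℝ} [FiniteDimensional K L] [IsAbelianGalois K L] [Normal K L₂]
    (hLF : L ≤ Lf a (U.M k)) (h : L₂ ≤ L)
    (hodd : ∀ δ : L ≃ₐ[K] L, res h δ = 1 → Odd (orderOf δ)) :
    ∃ y ∈ Lf a (U.M k), 0 < y ∧ fibProd hLF (xv U k J 1) 1 =
      fibProd (h.trans hLF) (xv U k J 1) 1 * y ^ 2 := by
  classical
  have hgf := isGF_xv_all U hJ hJ2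
  have hmem : ∀ g, xv U k J g ∈ Lf a (U.M k) := fun g => (mem_Lf_iff U D k _).2 (hgf.mem g)
  have hx0 : fibProd hLF (xv U k J 1) 1 ≠ 0 := by
    unfold fibProd
    exact Finset.prod_ne_zero_iff.2 fun γ _ => act_ne_zero γ (hmem 1) (hgf.pos 1).ne'
  have hxF : fibProd hLF (xv U k J 1) 1 ∈ Lf a (U.M k) := fibProd_mem hLF (hmem 1) 1
  obtain ⟨j, hj⟩ := odd_fib h hodd
  have hsq : ∀ δ : L ≃ₐ[K] L, ∃ y ∈ Lf a (U.M k), y ≠ 0 ∧ (δ ∈ fib h (1 : L₂ ≃ₐ[K] L₂) →
      act δ (fibProd hLF (xv U k J 1) 1) = fibProd hLF (xv U k J 1) 1 * y ^ 2) := by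
    intro δ
    by_cases hδ : δ ∈ fib h (1 : L₂ ≃ₐ[K] L₂)
    · obtain ⟨y, h1, h2, h3⟩ := act_square U D hJ hJ2 hLF (hodd δ ((mem_fib h).1 hδ))
      exact ⟨y, h1, h2, fun _ => h3⟩
    · exact ⟨1, one_mem _, one_ne_zero, fun h' => absurd h' hδ⟩
  choose f hf1 hf2 hf3 using hsq
  set x := fibProd hLF (xv U k J 1) 1 with hx
  set Y : ℝ := ∏ δ ∈ fib h (1 : L₂ ≃ₐ[K] L₂), f δ with hY
  have hY0 : Y ≠ 0 := Finset.prod_ne_zero_iff.2 fun δ _ => hf2 δ
  have hYF : Y ∈ Lf a (U.M k) := prod_mem fun δ _ => hf1 δ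
  have h2 : fibProd (h.trans hLF) (xv U k J 1) 1 = x ^ (2 * j + 1) * Y ^ 2 := by
    rw [← fibProd_trans h hLF (hmem 1), ← hx]
    have h3 : fibProd h x (1 : L₂ ≃ₐ[K] L₂) = ∏ δ ∈ fib h (1 : L₂ ≃ₐ[K] L₂), (x * f δ ^ 2) := by
      unfold fibProd
      exact Finset.prod_congr rfl fun δ hδ => hf3 δ hδ
    rw [h3, Finset.prod_mul_distrib, Finset.prod_const, hj, Finset.prod_pow]
  have hw0 : x ^ j * Y ≠ 0 := mul_ne_zero (pow_ne_zero _ hx0) hY0
  have hwF : x ^ j * Y ∈ Lf a (U.M k) := mul_mem (pow_mem hxF _) hYF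
  refine ⟨|x ^ j * Y|⁻¹, ?_, inv_pos.2 (abs_pos.2 hw0), ?_⟩
  · apply inv_mem
    rcases abs_choice (x ^ j * Y) with h3 | h3
    · rw [h3]
      exact hwF
    · rw [h3]
      exact neg_mem hwF
  · rw [h2, inv_pow, sq_abs]
    field_simp
    ring

end Pool.Agent.STh
end
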